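import Pool.Agent.Y194.UP.LocNF
import Pool.Agent.Y194.UQ.One

/-!
# Finite groups of characters of prime power order: the number of nonvanishing character sums
-/

set_option autoImplicit false

namespace Pool.Agent.Y194.UQ

open Finset
open Pool.Agent.Y683.CG (Ksy lev lev_many)

/-- families of characters -/
abbrev Fm : Type := (q : ℕ) → DirichletCharacter ℂ q

/-- evaluation at `u` -/
noncomputable def evf (H : Subgroup Fm) (S : Finset ℕ) (u : ℕ) : H →* ℂˣ :=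
  ∏ q ∈ S, if h : Nat.Coprime u q then
    { toFun := fun ψ => (MulChar.toUnitHom ((ψ : Fm) q) (ZMod.unitOfCoprime u h))⁻¹
      map_one' := by
        apply Units.ext
        rw [Units.val_inv_eq_inv_val, MulChar.coe_toUnitHom, ZMod.coe_unitOfCoprime]
        show ((1 : DirichletCharacter ℂ q) (u : ZMod q))⁻¹ = 1
        rw [MulChar.one_apply ((ZMod.isUnit_iff_coprime u q).2 h), inv_one]
      map_mul' := fun ψ ψ' => by
        apply Units.ext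
        simp [mul_comm] }
    else 1

lemma evf_val (H : Subgroup Fm) (S : Finset ℕ) (u : ℕ) (hu : ∀ q ∈ S, Nat.Coprime u q) (ψ : H) :
    ((evf H S u ψ : ℂˣ) : ℂ) = ∏ q ∈ S, ((ψ : Fm) q (u : ZMod q))⁻¹ := by
  unfold evf
  rw [MonoidHom.finsetProd_apply, Units.coe_prod]
  refine prod_congr rfl fun q hq => ?_
  rw [dif_pos (hu q hq)]
  show (((MulChar.toUnitHom ((ψ : Fm) q) (ZMod.unitOfCoprime u (hu q hq)))⁻¹ : ℂˣ) : ℂ) = _
  rw [Units.val_inv_eq_inv_val, MulChar.coe_toUnitHom, ZMod.coe_unitOfCoprime]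

theorem grp {r : ℕ} {m : Fin r → ℕ} {κ : Fin r → ℕ → ℤ → ℂ} {cc e : Fin r → ℕ → ℂ}
    (hκ : ∀ i, Ksy (m i) (κ i) (cc i) (e i)) (L : Fin r → Submodule ℤ ℂ)
    (hL : ∀ i, (L i).FG) (hmem : ∀ i, ∀ q : ℕ, 0 < q → ∀ a : ℤ, κ i q a ∈ L i)
    {c : Fin r → ℕ} (hc : ∀ i, 1 ≤ c i) (χ₀ : ∀ i, DirichletCharacter ℂ (c i))
    (hbase : ∀ i, lev (κ i) (c i) (fun u => (χ₀ i (u : ZMod (c i)))⁻¹) ≠ 0) :
    ∃ D : ℤ, D ≠ 0 ∧ ∀ l : ℕ, l.Prime → ∀ 𝔪 : Ideal (integralClosure ℤ ℂ), 𝔪.IsPrime →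
      (l : integralClosure ℤ ℂ) ∈ 𝔪 → ∀ H : Subgroup Fm, Finite H → IsPGroup l H →
      ∀ S : Finset ℕ, (∀ q ∈ S, q.Prime ∧ ∀ i, Nat.Coprime q (c i)) → ∀ b : Fin r → ℤ,
      (∀ i, b i ≠ 0 ∧ ∃ x y : integralClosure ℤ ℂ, x ∉ 𝔪 ∧
        (y : ℂ) * ∏ q ∈ S, EF (m i) (cc i) (e i) (χ₀ i) q = b i * (x : ℂ)) →
      ∀ Z : Finset H, (∀ ψ ∈ Z, ∃ i, lev (κ i) (c i * ∏ q ∈ S, q)
        (fun u => (χ₀ i (u : ZMod (c i)))⁻¹ * ∏ q ∈ S, ((ψ : Fm) q (u : ZMod q))⁻¹) = 0) →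
      Nat.card H ≤ l ^ (padicValInt l (D * ∏ i, b i)) * (Nat.card H - Z.card) := by
  classical
  choose D γ Y hD hγ hY h1 h2 using fun i =>
    one_form (hκ i) (L i) (hL i) (hmem i) (hc i) (χ₀ i) (hbase i)
  refine ⟨∏ i, D i, prod_ne_zero_iff.2 fun i _ => hD i, ?_⟩
  intro l hl 𝔪 h𝔪 hl𝔪 H hHf hH S hS b hb Z hZ
  choose hb0 x y hx hxy using hb
  have hx0 : ∀ i, (x i : ℂ) ≠ 0 := by
    intro i h
    apply hx i
    have : x i = 0 := Subtype.ext h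
    rw [this]
    exact 𝔪.zero_mem
  set P : ℕ := ∏ q ∈ S, q with hP
  have hP0 : 0 < P := prod_pos fun q hq => (hS q hq).1.pos
  set B : ℕ := ∏ i, (c i * P) with hB
  have hBle : ∀ i, c i * P ≤ B := by
    intro i
    refine Nat.le_of_dvd (prod_pos fun i _ => Nat.mul_pos (hc i) hP0) ?_
    exact dvd_prod_of_mem _ (mem_univ i)
  have hsum : ∀ (i : Fin r) (g : ℕ → ℂ), ∑ u : Fin B, (if (u : ℕ) < c i * P ∧
      Nat.Coprime u (c i * P) then g u else 0) =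
      ∑ u ∈ (range (c i * P)).filter (fun u => Nat.Coprime u (c i * P)), g u := by
    intro i g
    rw [Fin.sum_univ_eq_sum_range (fun u => if u < c i * P ∧ Nat.Coprime u (c i * P) then g u
      else 0) B, ← sum_filter]
    refine sum_congr ?_ fun _ _ => rfl
    ext u
    rw [mem_filter, mem_filter, mem_range, mem_range]
    constructor
    · rintro ⟨-, h3, h4⟩
      exact ⟨h3, h4⟩
    · rintro ⟨h3, h4⟩
      exact ⟨lt_of_lt_of_le h3 (hBle i), h3, h4⟩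
  have hcop : ∀ (i : Fin r) (u : ℕ), Nat.Coprime u (c i * P) → ∀ q ∈ S, Nat.Coprime u q := by
    intro i u hu q hq
    exact Nat.Coprime.coprime_dvd_right ((dvd_prod_of_mem (fun q => q) hq).trans
      (dvd_mul_left P (c i))) hu
  have h4 : (∏ i, D i) * ∏ i, b i = ∏ i, D i * b i := (prod_mul_distrib).symm
  rw [h4]
  refine Pool.Agent.Y194.UP.many hl.one_lt ?_
  refine Pool.Agent.Y194.UP.complex_zeros_loc hl hH (fun u : Fin B => evf H S u) 𝔪 h𝔪 hl𝔪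
    (fun i u => if (u : ℕ) < c i * P ∧ Nat.Coprime u (c i * P) then Y i (c i * P) u else 0)
    (fun i u => ?_) (fun i => D i * b i) (fun i => mul_ne_zero (hD i) (hb0 i))
    (fun i => γ i * y i) (fun i => (hγ i).mul (y i).2) x hx (fun i => ?_) Z ?_
  · split_ifs
    · exact hY i _ _
    · exact isIntegral_zero
  · rw [hsum i (fun u => Y i (c i * P) u)]
    exact h2 i S (fun q hq => ⟨(hS q hq).1, (hS q hq).2 i⟩) (b i) (x i) (y i) (hb0 i) (hx0 i)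
      (x i).2 (y i).2 (hxy i)
  · intro ψ hψ
    obtain ⟨i, hi⟩ := hZ ψ hψ
    refine ⟨i, ?_⟩
    have h5 := h1 i (c i * P) (fun u => ∏ q ∈ S, ((ψ : Fm) q (u : ZMod q))⁻¹)
      (Nat.mul_pos (hc i) hP0) (fun u hu => by
        have h6 := hcop i u hu
        obtain ⟨n, hn⟩ := hH ψ
        rw [← evf_val H S u h6 ψ]
        refine alg_of_pow (n := l ^ n) (pow_pos hl.pos n) ?_
        rw [← Units.val_pow_eq_pow_val, ← map_pow, hn, map_one, Units.val_one]) hi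
    refine Eq.trans ?_ h5
    rw [← hsum i (fun u => Y i (c i * P) u * ∏ q ∈ S, ((ψ : Fm) q (u : ZMod q))⁻¹)]
    refine sum_congr rfl fun u _ => ?_
    split_ifs with h6
    · rw [evf_val H S u (hcop i u h6.2) ψ]
    · rw [zero_mul]

end Pool.Agent.Y194.UQ
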