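import Pool.Agent.Y194.UQ.Grp
import Pool.Agent.Y683.CG.PartB

/-!
# The proportion of the nonvanishing central values in finite groups of characters
-/

set_option autoImplicit false

namespace Pool.Agent.Y194.UQ

open Complex Filter Topology Set ZMod
open UpperHalfPlane hiding I
open scoped MatrixGroups
open CongruenceSubgroup
open Pool.Agent.W192.CY
open Pool.Agent.Y683.CG

lemma lw_eq (κ : ℕ → ℤ → ℂ) {c : ℕ} (χ₀ : DirichletCharacter ℂ c) (χ : Fam) (T : Finset ℕ) :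
    lw κ χ₀ χ T = lev κ (c * ∏ q ∈ T, q)
      (fun u => (χ₀ (u : ZMod c))⁻¹ * ∏ q ∈ T, (χ q (u : ZMod q))⁻¹) := by
  unfold lw
  congr 1
  funext u
  rw [mul_inv, Finset.prod_inv_distrib]

theorem general {r : ℕ} {m N : Fin r → ℕ} [∀ i, NeZero (N i)] (hm : ∀ i, 1 ≤ m i)
    {η : (i : Fin r) → DirichletCharacter ℂ (N i)}
    {f : (i : Fin r) → CuspForm (Gamma1 (N i) : Subgroup (GL (Fin 2) ℝ)) (2 * m i : ℤ)}
    {w : Fin r → ℂ} (hf : ∀ i, NNewf (m i) (N i) (η i) (f i) (w i))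
    {c : Fin r → ℕ} (hc : ∀ i, 1 ≤ c i) (χ₀ : (i : Fin r) → DirichletCharacter ℂ (c i))
    (h0 : ∀ i, (χ₀ i).IsPrimitive) (hcN : ∀ i, Nat.Coprime (c i) (N i))
    (hbase : ∀ i, NVC (η i) (f i) (vals (χ₀ i) 1)) :
    ∃ D : ℕ, 1 ≤ D ∧ ∀ l : ℕ, l.Prime → ∀ 𝔪 : Ideal (integralClosure ℤ ℂ), 𝔪.IsMaximal →
      (l : integralClosure ℤ ℂ) ∈ 𝔪 → ∀ H : Subgroup Fam, Finite H →
      (∀ χ ∈ H, ∃ a : ℕ, χ ^ (l ^ a) = 1) → ∀ S : Finset ℕ,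
      (∀ q ∈ S, q.Prime ∧ ∀ i, ¬ q ∣ N i ∧ ¬ q ∣ c i) → (∀ χ ∈ H, ∀ q, χ q ≠ 1 → q ∈ S) →
      ∀ b : Fin r → ℕ, (∀ i, 1 ≤ b i ∧ ∃ x y : integralClosure ℤ ℂ, x ∉ 𝔪 ∧
        (y : ℂ) * ∏ q ∈ S, (cf (f i) q - η i (q : ZMod (N i)) * (q : ℂ) ^ (m i - 1) *
          χ₀ i (q : ZMod (c i)) - (q : ℂ) ^ (m i - 1) * (χ₀ i (q : ZMod (c i)))⁻¹) =
            b i * (x : ℂ)) →
      Nat.card H ≤ l ^ (padicValNat l (D * ∏ i, b i)) *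
        Nat.card {ψ : H // ∀ i, NVC (η i) (f i) (vals (χ₀ i) ψ)} := by
  classical
  have hcne : ∀ i, NeZero (c i) := fun i => ⟨by have := hc i; omega⟩
  obtain ⟨D, hD, hmain⟩ := grp (m := m) (κ := fun i => kp (m i) (f i)) (cc := fun i => cf (f i))
    (e := fun i p => η i (p : ZMod (N i))) (fun i => ksy (hm i) (hf i))
    (fun i => LP (f i) (2 * m i - 2)) (fun i => LP_fg (f i) _)
    (fun i q hq a => (kp_lim (f i) (hm i) hq a).2) hc χ₀ (fun i => by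
      have h1 : vals (χ₀ i) 1 = fun n : ℕ => χ₀ i (n : ZMod (c i)) := by
        funext n
        rw [vals_eq (χ₀ i) 1 ∅ (fun q => ⟨fun h => absurd h (Finset.notMem_empty q),
          fun h => absurd rfl h⟩), Finset.prod_empty, mul_one]
      have h2 := hbase i
      rw [h1] at h2
      exact (nonvan_iff (hm i) (hf i) (hcN i) (χ₀ i) (h0 i)).1 h2)
  refine ⟨D.natAbs, Int.natAbs_pos.2 hD, ?_⟩
  intro l hl 𝔪 hmax hlm H hHf hHl S hS hHS b hb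
  have hHp : IsPGroup l H := by
    intro χ
    obtain ⟨a, ha⟩ := hHl χ χ.2
    exact ⟨a, Subtype.ext ha⟩
  have hfin : Fintype H := Fintype.ofFinite H
  set Z : Finset H := Finset.univ.filter
    (fun ψ => ¬ ∀ i, NVC (η i) (f i) (vals (χ₀ i) (ψ : Fam))) with hZ
  have hcop : ∀ q ∈ S, q.Prime ∧ ∀ i, Nat.Coprime q (c i) := fun q hq =>
    ⟨(hS q hq).1, fun i => (Nat.Prime.coprime_iff_not_dvd (hS q hq).1).2 ((hS q hq).2 i).2⟩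
  have h1 := hmain l hl 𝔪 hmax.isPrime hlm H hHf hHp S hcop (fun i => (b i : ℤ)) (fun i => by
    obtain ⟨h2, x, y, hx, hxy⟩ := hb i
    refine ⟨by positivity, x, y, hx, ?_⟩
    push_cast
    exact hxy) Z (by
    intro ψ hψ
    rw [hZ, Finset.mem_filter] at hψ
    obtain ⟨-, hψ⟩ := hψ
    push Not at hψ
    obtain ⟨i, hi⟩ := hψ
    refine ⟨i, ?_⟩
    set T : Finset ℕ := S.filter (fun q => (ψ : Fam) q ≠ 1) with hT
    have hTS : T ⊆ S := Finset.filter_subset _ _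
    have hTm : ∀ q, q ∈ T ↔ (ψ : Fam) q ≠ 1 := by
      intro q
      rw [hT, Finset.mem_filter]
      exact ⟨fun h => h.2, fun h => ⟨hHS ψ ψ.2 q h, h⟩⟩
    obtain ⟨E, hE, hEv⟩ := fam_prim (χ₀ i) (h0 i) (ψ : Fam) T fun q hq =>
      ⟨(hcop q (hTS hq)).1, (hcop q (hTS hq)).2 i, (hTm q).1 hq⟩
    have hMne : NeZero (c i * ∏ q ∈ T, q) := ⟨mul_ne_zero (NeZero.ne (c i))
      (Finset.prod_ne_zero_iff.2 fun q hq => (hcop q (hTS hq)).1.ne_zero)⟩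
    have hMN : Nat.Coprime (c i * ∏ q ∈ T, q) (N i) := by
      refine Nat.Coprime.mul_left (hcN i) (Nat.Coprime.prod_left fun q hq => ?_)
      exact (Nat.Prime.coprime_iff_not_dvd (hcop q (hTS hq)).1).2 ((hS q (hTS hq)).2 i).1
    have h4 : vals (χ₀ i) ψ = fun n : ℕ => E (n : ZMod (c i * ∏ q ∈ T, q)) := by
      funext n
      rw [vals_eq (χ₀ i) ψ T hTm, hEv]
    rw [h4, nonvan_iff (hm i) (hf i) hMN E hE, not_not] at hi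
    have h5 : lw (kp (m i) (f i)) (χ₀ i) (ψ : Fam) T = 0 := by
      unfold lw
      simp only [← hEv]
      exact hi
    have h6 := lw_many (ksy (hm i) (hf i)) (χ₀ i) (h0 i) (ψ : Fam) hTS
      (fun q hq => (hTm q).1 hq) (fun q hq => by
        by_contra h
        exact hq ((hTm q).2 h)) (fun q hq => ⟨(hcop q hq).1, (hcop q hq).2 i⟩)
    rw [h5, mul_zero, lw_eq] at h6
    exact h6)
  have h2 : padicValInt l (D * ∏ i, ((b i : ℕ) : ℤ)) = padicValNat l (D.natAbs * ∏ i, b i) := by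
    unfold padicValInt
    congr 1
    rw [Int.natAbs_mul]
    congr 1
    rw [← Nat.cast_prod, Int.natAbs_natCast]
  rw [h2] at h1
  refine h1.trans (le_of_eq ?_)
  congr 1
  have h3 : Nat.card {ψ : H // ∀ i, NVC (η i) (f i) (vals (χ₀ i) ψ)} =
      (Finset.univ.filter (fun ψ : H => ∀ i, NVC (η i) (f i) (vals (χ₀ i) (ψ : Fam)))).card := by
    rw [Nat.card_eq_fintype_card, Fintype.card_subtype]
  have h4 := Finset.card_filter_add_card_filter_not (s := (Finset.univ : Finset H))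
    (fun ψ : H => ∀ i, NVC (η i) (f i) (vals (χ₀ i) (ψ : Fam)))
  have h5 : Nat.card H = (Finset.univ.filter
      (fun ψ : H => ∀ i, NVC (η i) (f i) (vals (χ₀ i) (ψ : Fam)))).card + Z.card := by
    rw [hZ, Nat.card_eq_fintype_card, ← Finset.card_univ]
    exact h4.symm
  rw [h3, h5, Nat.add_sub_cancel]

lemma root_int {ξ : ℂ} {n : ℕ} (hn : 0 < n) (h : ξ ^ n = 1) : ξ ∈ integralClosure ℤ ℂ := by
  refine IsIntegral.of_pow hn ?_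
  rw [h]
  exact isIntegral_one

/-- the factor is a unit -/
lemma factor_unit {l q : ℕ} (hlq : (l : ℤ) ∣ 1 - q) (𝔪 : Ideal (integralClosure ℤ ℂ))
    (hlm : (l : integralClosure ℤ ℂ) ∈ 𝔪) {a z ζ : ℂ} {n k : ℕ} (hn : 0 < n) (hk : 0 < k)
    (hz : z ^ n = 1) (hζ : ζ ^ k = 1) (x : integralClosure ℤ ℂ) (hx : x ∉ 𝔪)
    (hxe : (x : ℂ) = a - z * ζ - ζ⁻¹) (m : ℕ) :
    ∃ x' : integralClosure ℤ ℂ, x' ∉ 𝔪 ∧
      (x' : ℂ) = a - z * (q : ℂ) ^ (m - 1) * ζ - (q : ℂ) ^ (m - 1) * ζ⁻¹ := by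
  have hζi : (ζ⁻¹) ^ k = 1 := by rw [inv_pow, hζ, inv_one]
  set Z : integralClosure ℤ ℂ := ⟨z, root_int hn hz⟩ with hZ
  set X : integralClosure ℤ ℂ := ⟨ζ, root_int hk hζ⟩ with hX
  set X' : integralClosure ℤ ℂ := ⟨ζ⁻¹, root_int hk hζi⟩ with hX'
  have h1 : ((1 - q : ℤ) : integralClosure ℤ ℂ) ∈ 𝔪 := by
    obtain ⟨t, ht⟩ := hlq
    rw [ht, Int.cast_mul, Int.cast_natCast]
    exact 𝔪.mul_mem_right _ hlm
  have h2 : (1 : integralClosure ℤ ℂ) - (q : integralClosure ℤ ℂ) ^ (m - 1) ∈ 𝔪 := by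
    have h3 : (1 : integralClosure ℤ ℂ) - (q : integralClosure ℤ ℂ) ∣
        1 - (q : integralClosure ℤ ℂ) ^ (m - 1) := by
      have := sub_dvd_pow_sub_pow (1 : integralClosure ℤ ℂ) (q : integralClosure ℤ ℂ) (m - 1)
      rwa [one_pow] at this
    push_cast at h1
    exact 𝔪.mem_of_dvd h3 h1
  refine ⟨x + (1 - (q : integralClosure ℤ ℂ) ^ (m - 1)) * (Z * X + X'), fun hmem => hx ?_, ?_⟩
  · exact (Ideal.add_mem_iff_left _ (𝔪.mul_mem_right _ h2)).1 hmem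
  · push_cast
    rw [hxe, hZ, hX, hX']
    ring

theorem both {r : ℕ} {m N : Fin r → ℕ} [∀ i, NeZero (N i)] (hm : ∀ i, 1 ≤ m i)
    {η : (i : Fin r) → DirichletCharacter ℂ (N i)}
    {f : (i : Fin r) → CuspForm (Gamma1 (N i) : Subgroup (GL (Fin 2) ℝ)) (2 * m i : ℤ)}
    {w : Fin r → ℂ} (hf : ∀ i, NNewf (m i) (N i) (η i) (f i) (w i))
    {c : Fin r → ℕ} (hc : ∀ i, 1 ≤ c i) (χ₀ : (i : Fin r) → DirichletCharacter ℂ (c i))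
    (h0 : ∀ i, (χ₀ i).IsPrimitive) (hcN : ∀ i, Nat.Coprime (c i) (N i))
    (hbase : ∀ i, NVC (η i) (f i) (vals (χ₀ i) 1)) :
    ∃ D : ℕ, 1 ≤ D ∧ ∀ l : ℕ, l.Prime → ∀ 𝔪 : Ideal (integralClosure ℤ ℂ), 𝔪.IsMaximal →
      (l : integralClosure ℤ ℂ) ∈ 𝔪 → ∀ H : Subgroup Fam, Finite H →
      ((∀ χ ∈ H, (∃ a : ℕ, χ ^ (l ^ a) = 1) ∧ {q | χ q ≠ 1}.Finite ∧
          ∀ q, χ q ≠ 1 → q.Prime ∧ ∀ i, ¬ q ∣ N i ∧ ¬ q ∣ c i ∧
            ∃ x : integralClosure ℤ ℂ, x ∉ 𝔪 ∧ (x : ℂ) = cf (f i) q - η i (q : ZMod (N i)) *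
              χ₀ i (q : ZMod (c i)) - (χ₀ i (q : ZMod (c i)))⁻¹) →
        Nat.card H ≤ l ^ (padicValNat l D) *
          Nat.card {ψ : H // ∀ i, NVC (η i) (f i) (vals (χ₀ i) ψ)}) ∧
      ((∀ χ ∈ H, ∃ a : ℕ, χ ^ (l ^ a) = 1) → ∀ S : Finset ℕ,
        (∀ q ∈ S, q.Prime ∧ ∀ i, ¬ q ∣ N i ∧ ¬ q ∣ c i) → (∀ χ ∈ H, ∀ q, χ q ≠ 1 → q ∈ S) →
        ∀ b : Fin r → ℕ, (∀ i, 1 ≤ b i ∧ ∃ x y : integralClosure ℤ ℂ, x ∉ 𝔪 ∧
          (y : ℂ) * ∏ q ∈ S, (cf (f i) q - η i (q : ZMod (N i)) * (q : ℂ) ^ (m i - 1) *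
            χ₀ i (q : ZMod (c i)) - (q : ℂ) ^ (m i - 1) * (χ₀ i (q : ZMod (c i)))⁻¹) =
              b i * (x : ℂ)) →
        Nat.card H ≤ l ^ (padicValNat l (D * ∏ i, b i)) *
          Nat.card {ψ : H // ∀ i, NVC (η i) (f i) (vals (χ₀ i) ψ)}) := by
  classical
  obtain ⟨D, hD, hgen⟩ := general hm hf hc χ₀ h0 hcN hbase
  refine ⟨D, hD, fun l hl 𝔪 hmax hlm H hHf => ⟨fun hH => ?_, fun hHl S hS hHS b hb =>
    hgen l hl 𝔪 hmax hlm H hHf hHl S hS hHS b hb⟩⟩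
  have hfinS : (⋃ χ : H, {q | (χ : Fam) q ≠ 1}).Finite :=
    Set.finite_iUnion fun χ => (hH χ χ.2).2.1
  set S : Finset ℕ := hfinS.toFinset with hS
  have hmem : ∀ q, q ∈ S ↔ ∃ χ : H, (χ : Fam) q ≠ 1 := by
    intro q
    rw [hS, Set.Finite.mem_toFinset, Set.mem_iUnion]
    rfl
  have hSp : ∀ q ∈ S, q.Prime ∧ (l : ℤ) ∣ 1 - q ∧ ∀ i, ¬ q ∣ N i ∧ ¬ q ∣ c i ∧
      ∃ x : integralClosure ℤ ℂ, x ∉ 𝔪 ∧ (x : ℂ) = cf (f i) q - η i (q : ZMod (N i)) *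
        χ₀ i (q : ZMod (c i)) - (χ₀ i (q : ZMod (c i)))⁻¹ := by
    intro q hq
    obtain ⟨χ, hχ⟩ := (hmem q).1 hq
    obtain ⟨⟨a, ha⟩, -, h3⟩ := hH χ χ.2
    exact ⟨(h3 q hχ).1, (dvd_of_ord hl (h3 q hχ).1 ((χ : Fam) q) hχ (congrFun ha q)).1,
      (h3 q hχ).2⟩
  have hfac : ∀ (i : Fin r) (q : ℕ), ∃ x : integralClosure ℤ ℂ, q ∈ S → x ∉ 𝔪 ∧ (x : ℂ) =
      cf (f i) q - η i (q : ZMod (N i)) * (q : ℂ) ^ (m i - 1) * χ₀ i (q : ZMod (c i)) -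
        (q : ℂ) ^ (m i - 1) * (χ₀ i (q : ZMod (c i)))⁻¹ := by
    intro i q
    by_cases hq : q ∈ S
    · obtain ⟨h1, h2, h3⟩ := hSp q hq
      obtain ⟨h4, h5, x, hx, hxe⟩ := h3 i
      obtain ⟨x', hx', hxe'⟩ := factor_unit h2 𝔪 hlm
        (Nat.totient_pos.2 (Nat.pos_of_ne_zero (NeZero.ne (N i)))) (Nat.totient_pos.2 (hc i))
        (dc_root (dvd_refl _) (η i) ((Nat.Prime.coprime_iff_not_dvd h1).2 h4))
        (dc_root (dvd_refl _) (χ₀ i) ((Nat.Prime.coprime_iff_not_dvd h1).2 h5)) x hx hxe (m i)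
      exact ⟨x', fun _ => ⟨hx', hxe'⟩⟩
    · exact ⟨0, fun h => absurd h hq⟩
  choose x hx using hfac
  have hprime : 𝔪.IsPrime := hmax.isPrime
  have h := hgen l hl 𝔪 hmax hlm H hHf (fun χ hχ => (hH χ hχ).1) S
    (fun q hq => ⟨(hSp q hq).1, fun i => ⟨((hSp q hq).2.2 i).1, ((hSp q hq).2.2 i).2.1⟩⟩)
    (fun χ hχ q hq => (hmem q).2 ⟨⟨χ, hχ⟩, hq⟩) (fun _ => 1) (fun i => by
      refine ⟨le_refl _, ∏ q ∈ S, x i q, 1, ?_, ?_⟩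
      · intro hmem'
        obtain ⟨q, hq, hq'⟩ := hprime.prod_mem_iff.1 hmem'
        exact (hx i q hq).1 hq'
      · push_cast
        rw [one_mul, one_mul]
        exact Finset.prod_congr rfl fun q hq => (hx i q hq).2.symm)
  rwa [Finset.prod_const_one, mul_one] at h

theorem base {r : ℕ} {m N : Fin r → ℕ} [∀ i, NeZero (N i)] (hm : ∀ i, 1 ≤ m i)
    {η : (i : Fin r) → DirichletCharacter ℂ (N i)}
    {f : (i : Fin r) → CuspForm (Gamma1 (N i) : Subgroup (GL (Fin 2) ℝ)) (2 * m i : ℤ)}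
    {w : Fin r → ℂ} (hf : ∀ i, NNewf (m i) (N i) (η i) (f i) (w i)) {l : ℕ} (hl : l.Prime)
    (hlN : ∀ i, ¬ l ∣ N i) : ∃ (k a : ℕ) (χ₀ : DirichletCharacter ℂ (l ^ k)), χ₀.IsPrimitive ∧
      χ₀ ^ (l ^ a) = 1 ∧ ∃ V : ℕ, ∀ 𝔪 : Ideal (integralClosure ℤ ℂ), 𝔪.IsMaximal →
      (l : integralClosure ℤ ℂ) ∈ 𝔪 → ∀ H : Subgroup Fam, Finite H →
      (∀ χ ∈ H, (∃ a : ℕ, χ ^ (l ^ a) = 1) ∧ {q | χ q ≠ 1}.Finite ∧
        ∀ q, χ q ≠ 1 → q.Prime ∧ ∀ i, ¬ q ∣ N i ∧ ∃ x : integralClosure ℤ ℂ, x ∉ 𝔪 ∧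
          (x : ℂ) = cf (f i) q - 1 - η i (q : ZMod (N i))) →
      Nat.card H ≤ l ^ V * Nat.card {ψ : H // ∀ i, NVC (η i) (f i) (vals χ₀ ψ)} := by
  obtain ⟨k, a, χ₀, hχ, ha, hnv⟩ := base_exists hm hf hl hlN
  have hne : NeZero (l ^ k) := ⟨(pow_pos hl.pos _).ne'⟩
  obtain ⟨D, -, hD⟩ := both hm hf (c := fun _ => l ^ k)
    (fun _ => Nat.one_le_iff_ne_zero.2 (pow_pos hl.pos _).ne') (fun _ => χ₀) (fun _ => hχ)
    (fun i => Nat.Coprime.pow_left _ ((Nat.Prime.coprime_iff_not_dvd hl).2 (hlN i))) hnv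
  refine ⟨k, a, χ₀, hχ, ha, padicValNat l D, fun 𝔪 hmax hlm H hHf hH =>
    (hD l hl 𝔪 hmax hlm H hHf).1 fun χ hχH => ?_⟩
  obtain ⟨⟨b, hb⟩, h2, h3⟩ := hH χ hχH
  refine ⟨⟨b, hb⟩, h2, fun q hq => ?_⟩
  obtain ⟨h4, h5⟩ := h3 q hq
  refine ⟨h4, fun i => ?_⟩
  obtain ⟨h6, x, hx, hxe⟩ := h5 i
  have h7 := (dvd_of_ord hl h4 (χ q) hq (congrFun hb q)).2
  have h8 : Nat.Coprime q (l ^ k) :=
    Nat.Coprime.pow_right _ ((Nat.coprime_primes h4 hl).2 h7)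
  refine ⟨h6, fun h9 => ?_, ?_⟩
  · exact h7 ((Nat.prime_dvd_prime_iff_eq h4 hl).1 (h4.dvd_of_dvd_pow h9))
  · -- the values of `χ₀` are one modulo `𝔪`
    have hu : IsUnit (q : ZMod (l ^ k)) := (ZMod.isUnit_iff_coprime q _).2 h8
    set ζ : ℂ := χ₀ (q : ZMod (l ^ k)) with hζ
    have hζa : ζ ^ (l ^ a) = 1 := by
      have h9 : (χ₀ ^ (l ^ a)) (q : ZMod (l ^ k)) =
          (1 : DirichletCharacter ℂ (l ^ k)) (q : ZMod (l ^ k)) := by rw [ha]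
      rw [MulChar.pow_apply' _ (pow_pos hl.pos a).ne', MulChar.one_apply hu] at h9
      exact h9
    have hla : 0 < l ^ a := pow_pos hl.pos a
    have hζi : (ζ⁻¹) ^ (l ^ a) = 1 := by rw [inv_pow, hζa, inv_one]
    set z : integralClosure ℤ ℂ := ⟨ζ, root_int hla hζa⟩ with hz
    set z' : integralClosure ℤ ℂ := ⟨ζ⁻¹, root_int hla hζi⟩ with hz'
    have hη : η i (q : ZMod (N i)) ^ (Nat.totient (N i)) = 1 :=
      dc_root (dvd_refl _) (η i) ((Nat.Prime.coprime_iff_not_dvd h4).2 h6)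
    set e : integralClosure ℤ ℂ := ⟨η i (q : ZMod (N i)), root_int
      (Nat.totient_pos.2 (Nat.pos_of_ne_zero (NeZero.ne (N i)))) hη⟩ with he
    have m1 : 1 - z ∈ 𝔪 := one_sub_mem hl 𝔪 hmax hlm (a := a) (Subtype.ext hζa)
    have m2 : 1 - z' ∈ 𝔪 := one_sub_mem hl 𝔪 hmax hlm (a := a) (Subtype.ext hζi)
    refine ⟨x + (e * (1 - z) + (1 - z')), fun hmem => hx ?_, ?_⟩
    · exact (Ideal.add_mem_iff_left _ (Ideal.add_mem _ (Ideal.mul_mem_left _ e m1) m2)).1 hmem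
    · push_cast
      rw [hxe, hz, hz', he]
      ring

end Pool.Agent.Y194.UQ
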